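import Mathlib
import Pool.Agent.Q104.Digraph

/-!
# No balanced digraph has Laplacian spread strictly between zero and one
-/

set_option autoImplicit false

namespace Pool.Agent.Results.MP_6838a0_co.SpreadGap

open Q104.Digraph

/-- **The Laplacian spread of a balanced digraph of order `n ≥ 2` is never strictly between `0`
and `1`.** -/
theorem result (n : ℕ) (hn : 2 ≤ n) (A : Fin n → Fin n → Prop) [DecidableRel A]
    (h : IsBalanced A) : ¬ (0 < sp A ∧ sp A < 1) := by
  rintro ⟨h0, h1⟩
  rcases main h hn h1.le with h2 | ⟨-, -, h2, -⟩
  · linarith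
  · linarith

end Pool.Agent.Results.MP_6838a0_co.SpreadGap
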